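import Pool.Agent.X160.Fc.Path

/-!
# Switching to a graph with few edges
-/

set_option autoImplicit false
open Finset

namespace Pool.Agent.X160.Fc

variable {V : Type*} [Fintype V] [DecidableEq V] (G : SimpleGraph V) [DecidableRel G.Adj]

/-- The pairs at which the sign differs from `σ g(x) g(y)`. -/
def dif (σ : ℤ) (g : V → ℤ) : SimpleGraph V where
  Adj x y := x ≠ y ∧ sgn G x y ≠ σ * g x * g y
  symm := ⟨fun x y h => ⟨h.1.symm, fun h2 => h.2 (by rw [sgn_symm, h2]; ring)⟩⟩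
  loopless := ⟨fun x h => h.1 rfl⟩

instance (σ : ℤ) (g : V → ℤ) : DecidableRel (dif G σ g).Adj := fun x y => by
  unfold dif; infer_instance

theorem sgn_dif {σ : ℤ} {g : V → ℤ} (hσ : σ = 1 ∨ σ = -1) (hg : ∀ x, g x = 1 ∨ g x = -1)
    {x y : V} (hxy : x ≠ y) : sgn G x y = σ * g x * g y * sgn (dif G σ g) x y := by
  by_cases h : sgn G x y = σ * g x * g y
  · have h1 : ¬ (dif G σ g).Adj x y := fun h2 => h2.2 h
    rw [show sgn (dif G σ g) x y = 1 by unfold sgn; rw [if_neg h1], mul_one]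
    exact h
  · have h1 : (dif G σ g).Adj x y := ⟨hxy, h⟩
    rw [show sgn (dif G σ g) x y = -1 by unfold sgn; rw [if_pos h1]]
    revert h
    rcases sgn_cases G x y with e1 | e1 <;> rcases hg x with e2 | e2 <;>
      rcases hg y with e3 | e3 <;> rcases hσ with e4 | e4 <;> rw [e1, e2, e3, e4] <;> norm_num

theorem prod_dif {σ : ℤ} {g : V → ℤ} (hσ : σ = 1 ∨ σ = -1) (hg : ∀ x, g x = 1 ∨ g x = -1)
    {m : ℕ} (v : Fin (m + 3) ↪ V) :
    ∏ i, sgn G (v i) (v (finRotate (m + 3) i)) =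
      σ ^ (m + 3) * ∏ i, sgn (dif G σ g) (v i) (v (finRotate (m + 3) i)) := by
  have h1 : ∀ i, sgn G (v i) (v (finRotate (m + 3) i)) =
      σ * g (v i) * g (v (finRotate (m + 3) i)) *
        sgn (dif G σ g) (v i) (v (finRotate (m + 3) i)) := fun i =>
    sgn_dif G hσ hg fun h => rot_ne i (v.injective h).symm
  rw [prod_congr rfl fun i _ => h1 i, prod_mul_distrib, prod_mul_distrib, prod_mul_distrib,
    prod_const, card_univ, Fintype.card_fin,
    Equiv.prod_comp (finRotate (m + 3)) (fun i => g (v i)), mul_assoc (σ ^ (m + 3)),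
    ← prod_mul_distrib]
  have h2 : ∏ i, g (v i) * g (v i) = 1 := prod_eq_one fun i _ => by
    rcases hg (v i) with e | e <;> rw [e] <;> norm_num
  rw [h2, mul_one]

theorem F_dif_pos {σ : ℤ} {g : V → ℤ} (hσ : σ = 1 ∨ σ = -1) (hg : ∀ x, g x = 1 ∨ g x = -1)
    {m : ℕ} (h1 : σ ^ (m + 3) = 1) : F G (m + 3) = F (dif G σ g) (m + 3) := by
  unfold F
  congr 1
  ext v
  simp only [mem_filter, mem_univ, true_and]
  rw [odd_iff, odd_iff, prod_dif G hσ hg, h1, one_mul]

theorem F_dif_neg {σ : ℤ} {g : V → ℤ} (hσ : σ = 1 ∨ σ = -1) (hg : ∀ x, g x = 1 ∨ g x = -1)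
    {m : ℕ} (h1 : σ ^ (m + 3) = -1) :
    F G (m + 3) + F (dif G σ g) (m + 3) = (Fintype.card V).descFactorial (m + 3) := by
  have h2 : F G (m + 3) = (univ.filter fun v : Fin (m + 3) ↪ V =>
      ¬ Odd (steps (dif G σ g) v)).card := by
    unfold F
    congr 1
    ext v
    simp only [mem_filter, mem_univ, true_and]
    rw [odd_iff, odd_iff, prod_dif G hσ hg, h1, prod_sgn]
    rcases neg_one_pow_eq_or ℤ (steps (dif G σ g) v) with e | e <;> rw [e] <;> norm_num
  have h3 := card_filter_add_card_filter_not (s := (univ : Finset (Fin (m + 3) ↪ V)))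
    (fun v => Odd (steps (dif G σ g) v))
  rw [card_univ, Fintype.card_embedding_eq, Fintype.card_fin] at h3
  rw [h2, ← h3, add_comm]
  rfl

theorem A_nonneg (E : SimpleGraph V) [DecidableRel E.Adj] (x y : V) : 0 ≤ A E x y := by
  unfold A; split_ifs <;> simp

theorem A_le_one (E : SimpleGraph V) [DecidableRel E.Adj] (x y : V) : A E x y ≤ 1 := by
  unfold A; split_ifs <;> simp

/-- After a suitable switching there are few edges, and few pairs of adjacent edges. -/
theorem exists_sparse {m K : ℕ} (hn : 4 * K + m + 4 < Fintype.card V)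
    (hF : F G (m + 3) ≤ K * (Fintype.card V - 2).descFactorial (m + 1)) :
    ∃ (σ : ℤ) (g : V → ℤ), (σ = 1 ∨ σ = -1) ∧ (∀ x, g x = 1 ∨ g x = -1) ∧
      ∑ x, dg (dif G σ g) x ≤ K + (m + 1) * Fintype.card V + (m + 1) * (m + 1) ∧
      4 * ∑ x, dg (dif G σ g) x * dg (dif G σ g) x ≤ 4 * (K + (m + 1)) * ∑ x, dg (dif G σ g) x +
        (Fintype.card V + 2 * (m + 1)) * (∑ x, dg (dif G σ g) x + 2 * ((m + 1) * (m + 1))) := by
  classical
  obtain ⟨Q, σ, g, hσ, hg, hbad⟩ := exists_switch G hn hF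
  set n := Fintype.card V with hncard
  set QF : Finset V := univ.image Q with hQF
  have hmemQ : ∀ x, x ∈ QF ↔ x ∈ Set.range Q := fun x => by
    rw [hQF, mem_image]
    constructor
    · rintro ⟨i, _, h⟩; exact ⟨i, h⟩
    · rintro ⟨i, h⟩; exact ⟨i, mem_univ _, h⟩
  have hQcard : QF.card ≤ m + 1 := card_image_le.trans (by simp)
  set R : Finset V := QFᶜ with hR
  have hmemR : ∀ x, x ∈ R ↔ x ∉ Set.range Q := fun x => by rw [hR, mem_compl, hmemQ]
  set W : V → Finset V := fun q => R.filter fun x => sgn G q x ≠ σ * g x with hW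
  set g' : V → ℤ := fun x => if x ∈ QF then (if 2 * (W x).card ≤ n then 1 else -1) else g x
    with hg'
  have hg'c : ∀ x, g' x = 1 ∨ g' x = -1 := by
    intro x
    rw [hg']
    simp only
    split_ifs
    · exact Or.inl rfl
    · exact Or.inr rfl
    · exact hg x
  have hgR : ∀ x ∈ R, g' x = g x := fun x hx => by
    rw [hg']; simp only; rw [if_neg (mem_compl.1 hx)]
  set E := dif G σ g' with hE
  -- pairs in `R`
  have hRR : ∑ x ∈ R, ∑ y ∈ R, A E x y ≤ K := by
    have h1 : ∑ x ∈ R, ∑ y ∈ R, A E x y = (((R ×ˢ R).filter fun p => E.Adj p.1 p.2).card : ℤ) := by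
      rw [card_filter, sum_product]
      push_cast
      rfl
    rw [h1]
    have h2 : ((R ×ˢ R).filter fun p => E.Adj p.1 p.2) ⊆ bad G Q σ g := by
      rintro ⟨x, y⟩ hxy
      obtain ⟨h3, h4⟩ := mem_filter.1 hxy
      obtain ⟨h5, h6⟩ := mem_product.1 h3
      simp only at h4 h5 h6
      refine mem_filter.2 ⟨mem_univ _, h4.1, (hmemR x).1 h5, (hmemR y).1 h6, ?_⟩
      have := h4.2
      rwa [hgR x h5, hgR y h6] at this
    exact_mod_cast (card_le_card h2).trans hbad
  -- pairs between `Q` and `R`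
  have hQR : ∀ q ∈ QF, 2 * ∑ x ∈ R, A E q x ≤ n := by
    intro q hq
    have h1 : ∑ x ∈ R, A E q x = ((R.filter fun x => E.Adj q x).card : ℤ) := by
      rw [card_filter]; push_cast; rfl
    rw [h1]
    have hadj : ∀ x ∈ R, E.Adj q x ↔ sgn G q x ≠ σ * g' q * g x := by
      intro x hx
      constructor
      · intro h2
        have := h2.2
        rwa [hgR x hx] at this
      · intro h2
        refine ⟨?_, ?_⟩
        · rintro rfl; exact (mem_compl.1 hx) hq
        · rwa [hgR x hx]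
    by_cases hc : 2 * (W q).card ≤ n
    · have hgq : g' q = 1 := by rw [hg']; simp only; rw [if_pos hq, if_pos hc]
      have h2 : (R.filter fun x => E.Adj q x) = W q := by
        rw [hW]
        refine filter_congr fun x hx => ?_
        rw [hadj x hx, hgq, mul_one]
      rw [h2]
      exact_mod_cast hc
    · have hgq : g' q = -1 := by rw [hg']; simp only; rw [if_pos hq, if_neg hc]
      have h2 : (R.filter fun x => E.Adj q x) = R.filter fun x => ¬ (sgn G q x ≠ σ * g x) := by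
        refine filter_congr fun x hx => ?_
        rw [hadj x hx, hgq, not_not]
        rcases sgn_cases G q x with e1 | e1 <;> rcases hg x with e2 | e2 <;>
          rcases hσ with e3 | e3 <;> rw [e1, e2, e3] <;> norm_num
      have h3 := card_filter_add_card_filter_not (s := R) (fun x => sgn G q x ≠ σ * g x)
      have h4 : R.card ≤ n := by rw [hncard]; exact card_le_univ _
      have h5 : (R.filter fun x => sgn G q x ≠ σ * g x).card = (W q).card := rfl
      rw [h2]
      have h6 : 2 * (R.filter fun x => ¬ (sgn G q x ≠ σ * g x)).card ≤ n := by omega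
      exact_mod_cast h6
  have hMQ : ∀ x, ∑ y ∈ QF, A E x y ≤ m + 1 := by
    intro x
    refine (sum_le_sum fun y _ => A_le_one E x y).trans ?_
    rw [sum_const, nsmul_eq_mul, mul_one]
    exact_mod_cast hQcard
  have hdg : ∀ x, dg E x = ∑ y ∈ QF, A E x y + ∑ y ∈ R, A E x y := fun x => by
    rw [hR, sum_add_sum_compl]; rfl
  have hsplit : ∀ f : V → ℤ, ∑ x, f x = ∑ x ∈ QF, f x + ∑ x ∈ R, f x := fun f => by
    rw [hR, sum_add_sum_compl]
  -- names
  set rr := ∑ x ∈ R, ∑ y ∈ R, A E x y with hrr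
  set b := ∑ x ∈ QF, ∑ y ∈ R, A E x y with hb
  set qq := ∑ x ∈ QF, ∑ y ∈ QF, A E x y with hqq
  have hb' : ∑ x ∈ R, ∑ y ∈ QF, A E x y = b := by
    rw [sum_comm]
    exact sum_congr rfl fun x _ => sum_congr rfl fun y _ => A_symm E y x
  have hQs : ∑ x ∈ QF, dg E x = qq + b := by
    rw [sum_congr rfl fun x _ => hdg x, sum_add_distrib]
  have hRs : ∑ x ∈ R, dg E x = b + rr := by
    rw [sum_congr rfl fun x _ => hdg x, sum_add_distrib, hb']
  have hqq' : qq ≤ (m + 1) * (m + 1) := by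
    refine (sum_le_sum fun x _ => hMQ x).trans ?_
    rw [sum_const, nsmul_eq_mul]
    have : (QF.card : ℤ) ≤ m + 1 := by exact_mod_cast hQcard
    nlinarith
  have hbn : 2 * b ≤ (m + 1) * n := by
    rw [hb, mul_sum]
    refine (sum_le_sum fun x hx => hQR x hx).trans ?_
    rw [sum_const, nsmul_eq_mul]
    have : (QF.card : ℤ) ≤ m + 1 := by exact_mod_cast hQcard
    have h0 : (0 : ℤ) ≤ n := Int.natCast_nonneg _
    nlinarith
  have hb0 : 0 ≤ b := sum_nonneg fun _ _ => sum_nonneg fun _ _ => A_nonneg E _ _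
  have hrr0 : 0 ≤ rr := sum_nonneg fun _ _ => sum_nonneg fun _ _ => A_nonneg E _ _
  have hqq0 : 0 ≤ qq := sum_nonneg fun _ _ => sum_nonneg fun _ _ => A_nonneg E _ _
  have hdg0 : ∀ x, 0 ≤ dg E x := fun x => sum_nonneg fun _ _ => A_nonneg E _ _
  have hRdg : ∀ x ∈ R, dg E x ≤ K + (m + 1) := by
    intro x hx
    rw [hdg x]
    have h1 : ∑ y ∈ R, A E x y ≤ rr :=
      single_le_sum (f := fun x => ∑ y ∈ R, A E x y)
        (fun _ _ => sum_nonneg fun _ _ => A_nonneg E _ _) hx
    linarith [hMQ x]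
  have hQdg : ∀ x ∈ QF, 2 * dg E x ≤ n + 2 * (m + 1) := by
    intro x hx
    rw [hdg x]
    linarith [hMQ x, hQR x hx]
  have hsum : ∑ x, dg E x = qq + 2 * b + rr := by
    rw [hsplit, hQs, hRs]; ring
  have hsqR : ∑ x ∈ R, dg E x * dg E x ≤ (K + (m + 1)) * (b + rr) := by
    rw [← hRs, mul_sum]
    exact sum_le_sum fun x hx => mul_le_mul_of_nonneg_right (hRdg x hx) (hdg0 x)
  have hsqQ : 2 * ∑ x ∈ QF, dg E x * dg E x ≤ (n + 2 * (m + 1)) * (qq + b) := by
    rw [← hQs, mul_sum, mul_sum]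
    refine sum_le_sum fun x hx => ?_
    rw [← mul_assoc]
    exact mul_le_mul_of_nonneg_right (hQdg x hx) (hdg0 x)
  have goal1 : ∑ x, dg E x ≤ K + (m + 1) * n + (m + 1) * (m + 1) := by
    rw [hsum]
    linarith
  have goal2 : 4 * ∑ x, dg E x * dg E x ≤ 4 * (K + (m + 1)) * ∑ x, dg E x +
      (n + 2 * (m + 1)) * (∑ x, dg E x + 2 * ((m + 1) * (m + 1))) := by
    rw [hsum, hsplit]
    have hn0 : (0 : ℤ) ≤ (n : ℤ) + 2 * (m + 1) := by positivity
    have hK0 : (0 : ℤ) ≤ (K : ℤ) + (m + 1) := by positivity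
    nlinarith [mul_nonneg hn0 hqq0, mul_nonneg hn0 hrr0, mul_nonneg hK0 hqq0, mul_nonneg hK0 hb0,
      mul_le_mul_of_nonneg_left hqq' hn0]
  exact ⟨σ, g', hσ, hg'c, goal1, goal2⟩

end Pool.Agent.X160.Fc
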