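import Mathlib

/-!
# Counting closed walks on distinct vertices
-/

set_option autoImplicit false
open Finset

namespace Pool.Agent.X160.Fc

variable {V : Type*} [Fintype V] [DecidableEq V]

/-- The number of injective `k`-tuples with `r` prescribed values. -/
theorem card_fiber {k r : ℕ} (hr : r ≤ k) (a : Fin r ↪ Fin k) (b : Fin r ↪ V) :
    (univ.filter (fun v : Fin k ↪ V => a.trans v = b)).card =
      (Fintype.card V - r).descFactorial (k - r) := by
  have hN : ∀ b' : Fin r ↪ V, (univ.filter (fun v : Fin k ↪ V => a.trans v = b')).card =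
      (univ.filter (fun v : Fin k ↪ V => a.trans v = b)).card := by
    intro b'
    have htr : MulAction.IsPretransitive (Equiv.Perm V) (Fin r ↪ V) :=
      Equiv.Perm.isMultiplyPretransitive V r
    obtain ⟨π, hπ⟩ := htr.exists_smul_eq b' b
    refine card_bij' (fun v _ => v.trans π.toEmbedding) (fun v _ => v.trans π.symm.toEmbedding)
      ?_ ?_ ?_ ?_
    · intro v hv
      rw [mem_filter] at hv ⊢
      refine ⟨mem_univ _, ?_⟩
      rw [← hπ, ← hv.2]
      ext i
      rfl
    · intro v hv
      rw [mem_filter] at hv ⊢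
      refine ⟨mem_univ _, ?_⟩
      ext i
      have h1 := congrArg (fun f : Fin r ↪ V => f i) hv.2
      have h2 := congrArg (fun f : Fin r ↪ V => f i) hπ
      simp only [Function.Embedding.trans_apply, Function.Embedding.smul_apply,
        Equiv.Perm.smul_def] at h1 h2
      simp only [Function.Embedding.trans_apply, Equiv.coe_toEmbedding]
      rw [h1, ← h2, Equiv.symm_apply_apply]
    · intro v _
      ext i
      simp
    · intro v _
      ext i
      simp
  have h1 : (univ : Finset (Fin k ↪ V)).card = ∑ b' : Fin r ↪ V,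
      (univ.filter (fun v : Fin k ↪ V => a.trans v = b')).card :=
    card_eq_sum_card_fiberwise (f := fun v : Fin k ↪ V => a.trans v) (fun _ _ => mem_univ _)
  rw [sum_congr rfl (fun b' _ => hN b'), sum_const, smul_eq_mul, card_univ, card_univ,
    Fintype.card_embedding_eq, Fintype.card_embedding_eq, Fintype.card_fin, Fintype.card_fin,
    ← Nat.descFactorial_mul_descFactorial hr, mul_comm] at h1
  have hpos : 0 < (Fintype.card V).descFactorial r := by
    have h2 : Fintype.card (Fin r ↪ V) = (Fintype.card V).descFactorial r := by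
      rw [Fintype.card_embedding_eq, Fintype.card_fin]
    rw [← h2]
    exact Fintype.card_pos_iff.2 ⟨b⟩
  exact (Nat.eq_of_mul_eq_mul_left hpos h1).symm

theorem card_mem {k r : ℕ} (hr : r ≤ k) (a : Fin r ↪ Fin k) (T : Finset (Fin r ↪ V)) :
    (univ.filter (fun v : Fin k ↪ V => a.trans v ∈ T)).card =
      T.card * (Fintype.card V - r).descFactorial (k - r) := by
  rw [card_eq_sum_card_fiberwise (s := univ.filter (fun v : Fin k ↪ V => a.trans v ∈ T))
    (f := fun v : Fin k ↪ V => a.trans v) (t := T) (fun v hv => (mem_filter.1 hv).2)]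
  rw [sum_congr rfl (g := fun _ => (Fintype.card V - r).descFactorial (k - r)), sum_const,
    smul_eq_mul]
  intro b hb
  rw [← card_fiber hr a b]
  congr 1
  ext v
  simp only [mem_filter, mem_univ, true_and]
  constructor
  · exact fun h => h.2
  · exact fun h => ⟨h ▸ hb, h⟩

variable (E : SimpleGraph V) [DecidableRel E.Adj]

/-- Injective pairs forming an edge. -/
noncomputable def T1 : Finset (Fin 2 ↪ V) := univ.filter fun b => E.Adj (b 0) (b 1)

/-- Injective triples forming a path. -/
noncomputable def T2 : Finset (Fin 3 ↪ V) := univ.filter fun b => E.Adj (b 0) (b 1) ∧ E.Adj (b 1) (b 2)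

/-- Injective quadruples forming two edges. -/
noncomputable def T3 : Finset (Fin 4 ↪ V) := univ.filter fun b => E.Adj (b 0) (b 1) ∧ E.Adj (b 2) (b 3)

/-- The number of steps of the closed walk along edges. -/
def steps {k : ℕ} (v : Fin k ↪ V) : ℕ :=
  (univ.filter fun i : Fin k => E.Adj (v i) (v (finRotate k i))).card

/-- The number of closed walks on distinct vertices with an odd number of steps along edges. -/
noncomputable def F (k : ℕ) : ℕ := (univ.filter fun v : Fin k ↪ V => Odd (steps E v)).card

theorem rot_ne {m : ℕ} (i : Fin (m + 3)) : finRotate (m + 3) i ≠ i := by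
  rw [finRotate_apply]
  intro h
  have h1 : (1 : Fin (m + 3)) = 0 := by
    have := add_left_cancel (a := i) (b := 1) (c := 0) (by rw [h, add_zero])
    exact this
  have h2 := congrArg Fin.val h1
  simp at h2

theorem rot_rot_ne {m : ℕ} (i : Fin (m + 3)) :
    finRotate (m + 3) (finRotate (m + 3) i) ≠ i := by
  rw [finRotate_apply, finRotate_apply]
  intro h
  have h1 : (1 + 1 : Fin (m + 3)) = 0 := by
    have := add_left_cancel (a := i) (b := 1 + 1) (c := 0) (by rw [← add_assoc, h, add_zero])
    exact this
  have h2 := congrArg Fin.val h1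
  have h3 : ((1 : Fin (m + 3)) : ℕ) = 1 := Fin.val_one (m + 1)
  rw [Fin.val_add, h3, Nat.mod_eq_of_lt (by omega)] at h2
  simp at h2

theorem inj2 {α : Type*} {a b : α} (hab : a ≠ b) : Function.Injective (![a, b] : Fin 2 → α) := by
  intro x y hxy
  fin_cases x <;> fin_cases y <;> simp_all

theorem inj3 {α : Type*} {a b c : α} (hab : a ≠ b) (hac : a ≠ c) (hbc : b ≠ c) :
    Function.Injective (![a, b, c] : Fin 3 → α) := by
  have h1 := hab.symm
  have h2 := hac.symm
  have h3 := hbc.symm
  intro x y hxy
  fin_cases x <;> fin_cases y <;> simp_all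

theorem inj4 {α : Type*} {a b c d : α} (hab : a ≠ b) (hac : a ≠ c) (had : a ≠ d) (hbc : b ≠ c)
    (hbd : b ≠ d) (hcd : c ≠ d) : Function.Injective (![a, b, c, d] : Fin 4 → α) := by
  have h1 := hab.symm
  have h2 := hac.symm
  have h3 := hbc.symm
  have h4 := had.symm
  have h5 := hbd.symm
  have h6 := hcd.symm
  intro x y hxy
  fin_cases x <;> fin_cases y <;> simp_all

/-- The first moment. -/
theorem sum_steps (m : ℕ) : ∑ v : Fin (m + 3) ↪ V, steps E v =
    (m + 3) * ((T1 E).card * (Fintype.card V - 2).descFactorial (m + 1)) := by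
  unfold steps
  simp only [card_filter]
  rw [sum_comm]
  have h : ∀ i : Fin (m + 3), ∑ v : Fin (m + 3) ↪ V,
      (if E.Adj (v i) (v (finRotate (m + 3) i)) then 1 else 0) =
      (T1 E).card * (Fintype.card V - 2).descFactorial (m + 1) := by
    intro i
    have hinj := inj2 (rot_ne i).symm
    have h1 := card_mem (V := V) (k := m + 3) (r := 2) (by omega) ⟨_, hinj⟩ (T1 E)
    rw [show m + 3 - 2 = m + 1 by omega] at h1
    rw [← card_filter, ← h1]
    congr 1
    ext v
    simp [T1]
  rw [sum_congr rfl fun i _ => h i, sum_const, card_univ, Fintype.card_fin, smul_eq_mul]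

/-- The number of ordered pairs of different steps along edges. -/
def steps2 {k : ℕ} (v : Fin k ↪ V) : ℕ :=
  ∑ i : Fin k, ∑ j ∈ univ.erase i, if E.Adj (v i) (v (finRotate k i)) ∧
    E.Adj (v j) (v (finRotate k j)) then 1 else 0

theorem steps2_eq {k : ℕ} (v : Fin k ↪ V) : steps2 E v + steps E v = steps E v * steps E v := by
  classical
  unfold steps2 steps
  simp only [card_filter]
  rw [sum_mul_sum, ← sum_add_distrib]
  refine sum_congr rfl fun i _ => ?_
  rw [← sum_erase_add univ _ (mem_univ i)]
  congr 1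
  · refine sum_congr rfl fun j _ => ?_
    by_cases h1 : E.Adj (v i) (v (finRotate k i)) <;>
      by_cases h2 : E.Adj (v j) (v (finRotate k j)) <;>
        simp only [h1, h2, and_true, true_and, and_false, false_and, if_true, if_false, mul_one,
          mul_zero, zero_mul]
  · by_cases h1 : E.Adj (v i) (v (finRotate k i)) <;>
      simp only [h1, if_true, if_false, mul_one, mul_zero]

/-- The second moment. -/
theorem sum_steps2 (m : ℕ) : ∑ v : Fin (m + 3) ↪ V, steps2 E v =
    (m + 3) * (2 * ((T2 E).card * (Fintype.card V - 3).descFactorial m) +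
      m * ((T3 E).card * (Fintype.card V - 4).descFactorial (m - 1))) := by
  classical
  unfold steps2
  rw [sum_comm]
  have h : ∀ i : Fin (m + 3), ∑ v : Fin (m + 3) ↪ V, ∑ j ∈ univ.erase i,
      (if E.Adj (v i) (v (finRotate (m + 3) i)) ∧
        E.Adj (v j) (v (finRotate (m + 3) j)) then 1 else 0) =
      2 * ((T2 E).card * (Fintype.card V - 3).descFactorial m) +
      m * ((T3 E).card * (Fintype.card V - 4).descFactorial (m - 1)) := by
    intro i
    rw [sum_comm]
    set ρ := finRotate (m + 3) with hρ
    have hi1 := rot_ne i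
    have hi2 := rot_rot_ne i
    rw [← hρ] at hi1 hi2
    have hs1 : ρ (ρ.symm i) = i := ρ.apply_symm_apply i
    have hne1 : ρ.symm i ≠ i := fun h => hi1 (by
      have := congrArg ρ h; rw [hs1] at this; exact this.symm)
    have hne2 : ρ.symm i ≠ ρ i := fun h => hi2 (by
      have := congrArg ρ h; rw [hs1] at this; exact this.symm)
    have hmem1 : ρ i ∈ univ.erase i := mem_erase.2 ⟨hi1, mem_univ _⟩
    have hmem2 : ρ.symm i ∈ (univ.erase i).erase (ρ i) :=
      mem_erase.2 ⟨hne2, mem_erase.2 ⟨hne1, mem_univ _⟩⟩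
    rw [← sum_erase_add _ _ hmem1, ← sum_erase_add _ _ hmem2]
    -- the two neighbouring positions
    have hA : ∑ v : Fin (m + 3) ↪ V, (if E.Adj (v i) (v (ρ i)) ∧ E.Adj (v (ρ i)) (v (ρ (ρ i)))
        then 1 else 0) = (T2 E).card * (Fintype.card V - 3).descFactorial m := by
      have hinj := inj3 hi1.symm hi2.symm (rot_ne (ρ i)).symm
      have h1 := card_mem (V := V) (k := m + 3) (r := 3) (by omega) ⟨_, hinj⟩ (T2 E)
      rw [show m + 3 - 3 = m by omega] at h1
      rw [← card_filter, ← h1]
      congr 1
      ext v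
      simp [T2]
    have hB : ∑ v : Fin (m + 3) ↪ V, (if E.Adj (v i) (v (ρ i)) ∧
        E.Adj (v (ρ.symm i)) (v (ρ (ρ.symm i))) then 1 else 0) =
        (T2 E).card * (Fintype.card V - 3).descFactorial m := by
      have hinj := inj3 hne1 hne2 hi1.symm
      have h1 := card_mem (V := V) (k := m + 3) (r := 3) (by omega) ⟨_, hinj⟩ (T2 E)
      rw [show m + 3 - 3 = m by omega] at h1
      rw [← card_filter, ← h1]
      congr 1
      ext v
      simp [T2, and_comm]
    have hC : ∀ j ∈ ((univ.erase i).erase (ρ i)).erase (ρ.symm i),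
        ∑ v : Fin (m + 3) ↪ V, (if E.Adj (v i) (v (ρ i)) ∧ E.Adj (v j) (v (ρ j)) then 1 else 0) =
        (T3 E).card * (Fintype.card V - 4).descFactorial (m - 1) := by
      intro j hj
      rw [mem_erase, mem_erase, mem_erase] at hj
      obtain ⟨hj1, hj2, hj3, _⟩ := hj
      have hj4 : ρ j ≠ i := fun h => hj1 (by rw [← h, ρ.symm_apply_apply])
      have hj5 : ρ j ≠ ρ i := fun h => hj3 (ρ.injective h)
      have hj6 := rot_ne j
      rw [← hρ] at hj6
      have hinj := inj4 hi1.symm (Ne.symm hj3) hj4.symm (Ne.symm hj2) (Ne.symm hj5) hj6.symm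
      have hm : 4 ≤ m + 3 := by
        have := Fintype.card_le_of_injective _ hinj
        simpa using this
      have h1 := card_mem (V := V) (k := m + 3) (r := 4) hm ⟨_, hinj⟩ (T3 E)
      rw [show m + 3 - 4 = m - 1 by omega] at h1
      rw [← card_filter, ← h1]
      congr 1
      ext v
      simp [T3]
    rw [hA, hB, sum_congr rfl hC, sum_const, smul_eq_mul, card_erase_of_mem hmem2,
      card_erase_of_mem hmem1, card_erase_of_mem (mem_univ _), card_univ, Fintype.card_fin]
    rw [show m + 3 - 1 - 1 - 1 = m by omega]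
    ring
  rw [sum_congr rfl fun i _ => h i, sum_const, card_univ, Fintype.card_fin, smul_eq_mul]

/-- Bonferroni. -/
theorem F_lower (k : ℕ) : ∑ v : Fin k ↪ V, steps E v ≤ F E k + ∑ v : Fin k ↪ V, steps2 E v := by
  unfold F
  rw [card_filter, ← sum_add_distrib]
  refine sum_le_sum fun v _ => ?_
  have h := steps2_eq E v
  split_ifs with h1
  · obtain ⟨j, hj⟩ := h1
    rw [hj] at h ⊢
    nlinarith
  · rw [Nat.not_odd_iff_even] at h1
    obtain ⟨j, hj⟩ := h1
    rw [hj] at h ⊢
    rcases Nat.eq_zero_or_pos j with h0 | h0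
    · subst h0; omega
    · nlinarith

/-- Equality if there are never more than two steps. -/
theorem F_eq (k : ℕ) (h2 : ∀ v : Fin k ↪ V, steps E v ≤ 2) :
    F E k + ∑ v : Fin k ↪ V, steps2 E v = ∑ v : Fin k ↪ V, steps E v := by
  unfold F
  rw [card_filter, ← sum_add_distrib]
  refine sum_congr rfl fun v _ => ?_
  have h := steps2_eq E v
  have h3 := h2 v
  generalize steps E v = s at *
  interval_cases s
  · simp; omega
  · simp; omega
  · rw [if_neg (by decide)]; omega

end Pool.Agent.X160.Fc
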