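import Pool.Agent.X160.Fc.Count

/-!
# Pairs of edges
-/

set_option autoImplicit false
open Finset

namespace Pool.Agent.X160.Fc

variable {V : Type*} [Fintype V] [DecidableEq V] (E : SimpleGraph V) [DecidableRel E.Adj]

/-- The adjacency indicator. -/
def A (x y : V) : ℤ := if E.Adj x y then 1 else 0

/-- The degree. -/
def dg (x : V) : ℤ := ∑ y, A E x y

theorem A_symm (x y : V) : A E x y = A E y x := by
  unfold A
  simp only [E.adj_comm x y]

theorem A_self (x : V) : A E x x = 0 := by
  unfold A; simp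

theorem A_sq (x y : V) : A E x y * A E x y = A E x y := by
  unfold A; split_ifs <;> simp

theorem card_T1 : ((T1 E).card : ℤ) = ∑ x, dg E x := by
  have h : (T1 E).card = (univ.filter fun p : V × V => E.Adj p.1 p.2).card := by
    refine card_bij (fun b _ => (b 0, b 1)) ?_ ?_ ?_
    · intro b hb
      simpa [T1] using hb
    · intro b _ b' _ hbb
      rw [Prod.mk.injEq] at hbb
      ext i
      fin_cases i
      · exact hbb.1
      · exact hbb.2
    · rintro ⟨x, y⟩ hp
      have hadj : E.Adj x y := by simpa using hp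
      exact ⟨⟨![x, y], inj2 hadj.ne⟩, by simpa [T1] using hadj, rfl⟩
  rw [h, card_filter, Fintype.sum_prod_type]
  push_cast
  rfl

theorem card_T2 : ((T2 E).card : ℤ) + ∑ x, dg E x = ∑ x, dg E x * dg E x := by
  have h : (T2 E).card = (univ.filter fun p : V × V × V => E.Adj p.1 p.2.1 ∧
      E.Adj p.1 p.2.2 ∧ p.2.1 ≠ p.2.2).card := by
    refine card_bij (fun b _ => (b 1, b 0, b 2)) ?_ ?_ ?_
    · intro b hb
      have hb' : E.Adj (b 0) (b 1) ∧ E.Adj (b 1) (b 2) := by simpa [T2] using hb
      have hne : b 0 ≠ b 2 := fun h => absurd (b.injective h) (by decide)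
      exact mem_filter.2 ⟨mem_univ _, hb'.1.symm, hb'.2, hne⟩
    · intro b _ b' _ hbb
      rw [Prod.mk.injEq, Prod.mk.injEq] at hbb
      ext i
      fin_cases i
      · exact hbb.2.1
      · exact hbb.1
      · exact hbb.2.2
    · rintro ⟨x, y, z⟩ hp
      have hadj : E.Adj x y ∧ E.Adj x z ∧ y ≠ z := by simpa using hp
      exact ⟨⟨![y, x, z], inj3 hadj.1.ne.symm hadj.2.2 hadj.2.1.ne⟩,
        by simpa [T2] using ⟨hadj.1.symm, hadj.2.1⟩, rfl⟩
  have h2 : ((T2 E).card : ℤ) = ∑ x, ∑ y, ∑ z, A E x y * A E x z * (1 - if y = z then 1 else 0) := by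
    rw [h, card_filter, Fintype.sum_prod_type]
    push_cast
    refine sum_congr rfl fun x _ => ?_
    rw [Fintype.sum_prod_type]
    refine sum_congr rfl fun y _ => sum_congr rfl fun z _ => ?_
    unfold A
    by_cases h1 : E.Adj x y <;> by_cases h2 : E.Adj x z <;> by_cases h3 : y = z <;>
      simp [h1, h2, h3]
  rw [h2, ← sum_add_distrib]
  refine sum_congr rfl fun x _ => ?_
  have h3 : ∀ y, ∑ z, A E x y * A E x z * (1 - if y = z then 1 else 0) =
      A E x y * dg E x - A E x y := by
    intro y
    simp only [mul_sub, mul_one, sum_sub_distrib, mul_ite, mul_zero, sum_ite_eq, mem_univ,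
      if_true, A_sq]
    rw [← mul_sum]
    rfl
  rw [sum_congr rfl fun y _ => h3 y, sum_sub_distrib, ← sum_mul]
  have h4 : ∑ y, A E x y = dg E x := rfl
  rw [h4]
  ring

theorem card_T3 : ((T3 E).card : ℤ) + 4 * (T2 E).card + 2 * (T1 E).card =
    (T1 E).card * (T1 E).card := by
  have h : (T3 E).card = (univ.filter fun p : (V × V) × (V × V) => (E.Adj p.1.1 p.1.2 ∧
      E.Adj p.2.1 p.2.2) ∧ ((p.2.1 ≠ p.1.1 ∧ p.2.1 ≠ p.1.2) ∧
        (p.2.2 ≠ p.1.1 ∧ p.2.2 ≠ p.1.2))).card := by
    refine card_bij (fun b _ => ((b 0, b 1), (b 2, b 3))) ?_ ?_ ?_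
    · intro b hb
      have hb' : E.Adj (b 0) (b 1) ∧ E.Adj (b 2) (b 3) := by simpa [T3] using hb
      have h1 : b 2 ≠ b 0 := fun h => absurd (b.injective h) (by decide)
      have h2 : b 2 ≠ b 1 := fun h => absurd (b.injective h) (by decide)
      have h3 : b 3 ≠ b 0 := fun h => absurd (b.injective h) (by decide)
      have h4 : b 3 ≠ b 1 := fun h => absurd (b.injective h) (by decide)
      exact mem_filter.2 ⟨mem_univ _, hb', ⟨h1, h2⟩, h3, h4⟩
    · intro b _ b' _ hbb
      rw [Prod.mk.injEq, Prod.mk.injEq, Prod.mk.injEq] at hbb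
      ext i
      fin_cases i
      · exact hbb.1.1
      · exact hbb.1.2
      · exact hbb.2.1
      · exact hbb.2.2
    · rintro ⟨⟨x, y⟩, z, w⟩ hp
      obtain ⟨⟨h1, h2⟩, ⟨h3, h4⟩, h5, h6⟩ := (mem_filter.1 hp).2
      simp only at h1 h2 h3 h4 h5 h6
      exact ⟨⟨![x, y, z, w], inj4 h1.ne h3.symm h5.symm h4.symm h6.symm h2.ne⟩,
        by simpa [T3] using ⟨h1, h2⟩, rfl⟩
  have h2 : ((T3 E).card : ℤ) = ∑ x, ∑ y, A E x y * ∑ z, ∑ w, A E z w *
      ((1 - (if z = x then 1 else 0) - (if z = y then 1 else 0)) *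
        (1 - (if w = x then 1 else 0) - (if w = y then 1 else 0))) := by
    rw [h, card_filter, Fintype.sum_prod_type]
    push_cast
    rw [Fintype.sum_prod_type]
    refine sum_congr rfl fun x _ => sum_congr rfl fun y _ => ?_
    rw [Fintype.sum_prod_type, mul_sum]
    refine sum_congr rfl fun z _ => ?_
    rw [mul_sum]
    refine sum_congr rfl fun w _ => ?_
    unfold A
    by_cases h1 : E.Adj x y
    · have hne := h1.ne
      by_cases h2 : E.Adj z w <;> by_cases h3 : z = x <;> by_cases h4 : z = y <;>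
        by_cases h5 : w = x <;> by_cases h6 : w = y <;> simp_all
    · simp [h1]
  have h3 : ∀ x y, A E x y * ∑ z, ∑ w, A E z w *
      ((1 - (if z = x then 1 else 0) - (if z = y then 1 else 0)) *
        (1 - (if w = x then 1 else 0) - (if w = y then 1 else 0))) =
      A E x y * ((T1 E).card + 2) - 2 * (A E x y * dg E x) - 2 * (A E x y * dg E y) := by
    intro x y
    have e1 : ∀ z, ∑ w, A E z w *
      ((1 - (if z = x then 1 else 0) - (if z = y then 1 else 0)) *
        (1 - (if w = x then 1 else 0) - (if w = y then 1 else 0))) =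
        (1 - (if z = x then 1 else 0) - (if z = y then 1 else 0)) *
          (dg E z - A E z x - A E z y) := by
      intro z
      have e2 : ∀ w, A E z w *
        ((1 - (if z = x then 1 else 0) - (if z = y then 1 else 0)) *
        (1 - (if w = x then 1 else 0) - (if w = y then 1 else 0))) =
        (1 - (if z = x then 1 else 0) - (if z = y then 1 else 0)) *
          (A E z w - (if w = x then A E z w else 0) - (if w = y then A E z w else 0)) := by
        intro w
        split_ifs <;> ring
      rw [sum_congr rfl fun w _ => e2 w, ← mul_sum, sum_sub_distrib, sum_sub_distrib,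
        sum_ite_eq', sum_ite_eq', if_pos (mem_univ _), if_pos (mem_univ _)]
      rfl
    rw [sum_congr rfl fun z _ => e1 z]
    have e3 : ∀ z, (1 - (if z = x then (1 : ℤ) else 0) - (if z = y then 1 else 0)) *
          (dg E z - A E z x - A E z y) = (dg E z - A E x z - A E y z) -
          (if z = x then (dg E z - A E z x - A E z y) else 0) -
          (if z = y then (dg E z - A E z x - A E z y) else 0) := by
      intro z
      rw [A_symm E z x, A_symm E z y]
      split_ifs <;> ring
    rw [sum_congr rfl fun z _ => e3 z, sum_sub_distrib, sum_sub_distrib, sum_ite_eq',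
      sum_ite_eq', if_pos (mem_univ _), if_pos (mem_univ _), sum_sub_distrib, sum_sub_distrib,
      ← card_T1, A_self, A_self, A_symm E y x]
    have e4 : ∑ z, A E x z = dg E x := rfl
    have e5 : ∑ z, A E y z = dg E y := rfl
    rw [e4, e5]
    have e6 := A_sq E x y
    linear_combination 2 * e6
  have h4 : ∑ x, ∑ y, A E x y * dg E y = ∑ x, dg E x * dg E x := by
    rw [sum_comm]
    refine sum_congr rfl fun x _ => ?_
    rw [← sum_mul]
    congr 1
    exact sum_congr rfl fun y _ => A_symm E y x
  have h5 : ∑ x, (∑ y, A E x y) * dg E x = ∑ x, dg E x * dg E x := rfl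
  have h6 : ∑ x, ∑ y, A E x y = (T1 E).card := (card_T1 E).symm
  have h7 := card_T2 E
  rw [h2, sum_congr rfl fun x _ => sum_congr rfl fun y _ => h3 x y]
  simp only [sum_sub_distrib, ← mul_sum, ← sum_mul]
  rw [h4, h5, h6]
  rw [← card_T1] at h7
  linear_combination 4 * h7

end Pool.Agent.X160.Fc
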