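import Pool.Agent.X160.Fc.Bound

/-!
# The comparison with the star
-/

set_option autoImplicit false
open Finset

namespace Pool.Agent.X160.Fc

/-- The star with `s` edges and `n - s - 1` isolated vertices. -/
def star (n s : ℕ) : SimpleGraph (Fin n) where
  Adj x y := (x.val = 0 ∧ y.val ≠ 0 ∧ y.val ≤ s) ∨ (y.val = 0 ∧ x.val ≠ 0 ∧ x.val ≤ s)
  symm := ⟨fun _ _ h => h.symm⟩
  loopless := ⟨fun x h => by rcases h with ⟨h1, h2, _⟩ | ⟨h1, h2, _⟩ <;> exact h2 h1⟩

instance (n s : ℕ) : DecidableRel (star n s).Adj := fun x y => by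
  unfold star; infer_instance

/-- The leaves. -/
def leaves (n s : ℕ) : Finset (Fin n) := univ.filter fun y => y.val ≠ 0 ∧ y.val ≤ s

theorem card_leaves {n s : ℕ} (h : s < n) : (leaves n s).card = s := by
  have h1 : (leaves n s).card = (range s).card := by
    refine card_bij' (fun y _ => y.val - 1) (fun i hi => (⟨i + 1, by
      have := mem_range.1 hi; omega⟩ : Fin n)) ?_ ?_ ?_ ?_
    · intro y hy
      obtain ⟨h2, h3⟩ := (mem_filter.1 hy).2
      rw [mem_range]; omega
    · intro i hi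
      rw [mem_range] at hi
      exact mem_filter.2 ⟨mem_univ _, Nat.succ_ne_zero i, hi⟩
    · intro y hy
      obtain ⟨h2, h3⟩ := (mem_filter.1 hy).2
      exact Fin.ext (Nat.sub_add_cancel (Nat.one_le_iff_ne_zero.2 h2))
    · intro i hi
      exact Nat.add_sub_cancel i 1
  rw [h1, card_range]

theorem dg_star_zero {n s : ℕ} (h : s < n) : dg (star n s) ⟨0, by omega⟩ = s := by
  unfold dg A
  have h1 : ∀ y : Fin n, (if (star n s).Adj ⟨0, by omega⟩ y then (1 : ℤ) else 0) =
      if (y.val ≠ 0 ∧ y.val ≤ s) then 1 else 0 := by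
    intro y
    congr 1
    rw [eq_iff_iff]
    constructor
    · rintro (⟨_, h2⟩ | ⟨_, h2, _⟩)
      · exact h2
      · exact absurd rfl h2
    · exact fun h2 => Or.inl ⟨rfl, h2⟩
  rw [sum_congr rfl fun y _ => h1 y]
  have h2 := card_leaves h
  unfold leaves at h2
  rw [card_filter] at h2
  exact_mod_cast h2

theorem dg_star_ne {n s : ℕ} (h : s < n) (x : Fin n) (hx : x.val ≠ 0) :
    dg (star n s) x = if (x.val ≠ 0 ∧ x.val ≤ s) then 1 else 0 := by
  unfold dg A
  rw [sum_eq_single (⟨0, by omega⟩ : Fin n)]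
  · congr 1
    rw [eq_iff_iff]
    constructor
    · rintro (⟨h2, _⟩ | ⟨_, h2⟩)
      · exact absurd h2 hx
      · exact h2
    · exact fun h2 => Or.inr ⟨rfl, h2⟩
  · intro y _ hy
    rw [if_neg]
    rintro (⟨h2, _⟩ | ⟨h2, _⟩)
    · exact hx h2
    · exact hy (Fin.ext h2)
  · intro h2
    exact absurd (mem_univ _) h2

theorem sum_star {n s : ℕ} (h : s < n) (f : ℤ → ℤ) (hf : f 0 = 0) :
    ∑ x, f (dg (star n s) x) = f s + s * f 1 := by
  rw [← add_sum_erase univ _ (mem_univ (⟨0, by omega⟩ : Fin n)), dg_star_zero h]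
  congr 1
  have h1 : ∀ x ∈ univ.erase (⟨0, by omega⟩ : Fin n), f (dg (star n s) x) =
      (if (x.val ≠ 0 ∧ x.val ≤ s) then 1 else 0) * f 1 := by
    intro x hx
    have hx0 : x.val ≠ 0 := fun h2 => (ne_of_mem_erase hx) (Fin.ext h2)
    rw [dg_star_ne h x hx0]
    split_ifs
    · rw [one_mul]
    · rw [hf, zero_mul]
  rw [sum_congr rfl h1, ← sum_mul]
  congr 1
  have h2 := card_leaves h
  unfold leaves at h2
  rw [card_filter] at h2
  have h3 : ∑ x : Fin n, (if (x.val ≠ 0 ∧ x.val ≤ s) then (1 : ℤ) else 0) = s := by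
    exact_mod_cast h2
  rw [← h3, ← add_sum_erase univ _ (mem_univ (⟨0, by omega⟩ : Fin n))]
  simp

theorem star_T1 {n s : ℕ} (h : s < n) : ((T1 (star n s)).card : ℤ) = 2 * s := by
  rw [card_T1, sum_star h (fun x => x) rfl]; ring

theorem star_T2 {n s : ℕ} (h : s < n) : ((T2 (star n s)).card : ℤ) = s * s - s := by
  have h1 := card_T2 (star n s)
  rw [sum_star h (fun x => x) rfl, sum_star h (fun x => x * x) (by norm_num)] at h1
  linarith

theorem star_steps {n s k : ℕ} (v : Fin k ↪ Fin n) : steps (star n s) v ≤ 2 := by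
  unfold steps
  have h1 : (univ.filter fun i : Fin k => (star n s).Adj (v i) (v (finRotate k i))) ⊆
      (univ.filter fun i : Fin k => (v i).val = 0) ∪
        (univ.filter fun i : Fin k => (v (finRotate k i)).val = 0) := by
    intro i hi
    rw [mem_union, mem_filter, mem_filter]
    rcases (mem_filter.1 hi).2 with ⟨h2, _⟩ | ⟨h2, _⟩
    · exact Or.inl ⟨mem_univ _, h2⟩
    · exact Or.inr ⟨mem_univ _, h2⟩
  refine (card_le_card h1).trans ((card_union_le _ _).trans ?_)
  have h2 : (univ.filter fun i : Fin k => (v i).val = 0).card ≤ 1 := by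
    rw [card_le_one]
    intro a ha b hb
    exact v.injective (Fin.ext ((mem_filter.1 ha).2.trans (mem_filter.1 hb).2.symm))
  have h3 : (univ.filter fun i : Fin k => (v (finRotate k i)).val = 0).card ≤ 1 := by
    rw [card_le_one]
    intro a ha b hb
    exact (finRotate k).injective
      (v.injective (Fin.ext ((mem_filter.1 ha).2.trans (mem_filter.1 hb).2.symm)))
  omega

/-- The upper bound for the star. -/
theorem star_F {n s m : ℕ} (h : s < n) :
    (F (star n s) (m + 3) : ℤ) + 2 * (m + 3) * (s * s - s) * (n - 3).descFactorial m ≤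
      2 * (m + 3) * s * (n - 2).descFactorial (m + 1) := by
  have h1 := F_eq (star n s) (m + 3) (fun v => star_steps v)
  rw [sum_steps, sum_steps2, Fintype.card_fin] at h1
  have h1' : (F (star n s) (m + 3) : ℤ) + (m + 3) * (2 * ((T2 (star n s)).card *
      (n - 3).descFactorial m) + m * ((T3 (star n s)).card * (n - 4).descFactorial (m - 1))) =
      (m + 3) * ((T1 (star n s)).card * (n - 2).descFactorial (m + 1)) := by
    exact_mod_cast h1
  rw [star_T1 h, star_T2 h] at h1'
  have h2 : (0 : ℤ) ≤ (m + 3) * (m * ((T3 (star n s)).card * (n - 4).descFactorial (m - 1))) := by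
    positivity
  linarith

theorem F_upper {V : Type*} [Fintype V] [DecidableEq V] (E : SimpleGraph V) [DecidableRel E.Adj]
    (k : ℕ) : F E k ≤ ∑ v : Fin k ↪ V, steps E v := by
  unfold F
  rw [card_filter]
  refine sum_le_sum fun v _ => ?_
  split_ifs with h
  · exact h.pos
  · exact Nat.zero_le _

/-- The numerical part. -/
theorem numeric {n m t K a D2 x2 x3 c3 c4 FE FS : ℤ} (hm : 0 ≤ m) (ht : 0 ≤ t) (hK : 0 ≤ K)
    (hc3 : 0 ≤ c3) (hc4 : 0 ≤ c4) (hx2 : 0 ≤ x2) (hx3 : 0 ≤ x3)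
    (h1 : (m + 3) * (a * ((n - 2) * c3)) ≤ FE + (m + 3) * (2 * (x2 * c3) + m * (x3 * c4)))
    (h2 : x3 + 4 * x2 + 2 * a = a * a) (h3 : x2 + a = D2) (h4 : m * c3 = m * ((n - 3) * c4))
    (h4' : 2 * m * c4 ≤ c3)
    (h5 : FS + 2 * (m + 3) * ((t + 1) * (t + 1) - (t + 1)) * c3 ≤
      2 * (m + 3) * (t + 1) * ((n - 2) * c3))
    (h6 : a ≤ K + (m + 1) * n + (m + 1) * (m + 1))
    (h7 : 4 * D2 ≤ 4 * (K + (m + 1)) * a + (n + 2 * (m + 1)) * (a + 2 * ((m + 1) * (m + 1))))
    (hn1 : 6 ≤ n)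
    (hn2 : 8 + 8 * (K + (m + 1)) + 4 * (m + 1) +
      8 * m * (K + (m + 1) + (m + 1) * (m + 1)) ≤ n)
    (hn3 : (8 * (t + 1) + 4 * (m + 1) * (m + 1) + 8 * (m + 1) * (m + 1) * (m + 1)) *
      (8 * (t + 1) + 4 * (m + 1) * (m + 1) + 8 * (m + 1) * (m + 1) * (m + 1)) + 2 ≤ n)
    (ha : 2 * (t + 1) ≤ a) : FS ≤ FE := by
  set M := m + 1 with hM
  have hM0 : 0 ≤ M := by linarith
  have hM1 : 1 ≤ M := by linarith
  set T0 := 8 * (t + 1) + 4 * M * M + 8 * M * M * M with hT0
  have ha0 : 0 ≤ a := by linarith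
  -- it suffices to bound the bracket
  suffices hsuff : 2 * (t + 1) * ((n - 2) * c3) - 2 * ((t + 1) * (t + 1) - (t + 1)) * c3 ≤
      a * ((n - 2) * c3) - (2 * (x2 * c3) + m * (x3 * c4)) by
    have h8 := mul_le_mul_of_nonneg_left hsuff (show (0 : ℤ) ≤ m + 3 by linarith)
    linarith
  rcases eq_or_lt_of_le ha with h8 | h8
  · -- equality
    have h9 : 4 * x2 = 4 * ((t + 1) * (t + 1) - (t + 1)) - x3 := by
      rw [← h8] at h2; linarith
    have h10 := mul_le_mul_of_nonneg_right h4' hx3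
    have h11 : 4 * (x2 * c3) = 4 * ((t + 1) * (t + 1) - (t + 1)) * c3 - x3 * c3 := by
      linear_combination c3 * h9
    rw [← h8]
    linarith
  · have hx3a : x3 ≤ a * a := by linarith
    have h9 : 0 ≤ 2 * ((t + 1) * (t + 1) - (t + 1)) * c3 := by
      have : (0 : ℤ) ≤ (t + 1) * (t + 1) - (t + 1) := by nlinarith
      positivity
    rcases le_or_gt a T0 with h10 | h10
    · -- few edges
      have h11 : m * (x3 * c4) * 2 ≤ (a * a) * c3 := by
        have e1 := mul_le_mul_of_nonneg_right h4' hx3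
        have e2 := mul_le_mul_of_nonneg_right hx3a hc3
        linarith
      have h12 : 2 * (x2 * c3) * 2 ≤ (a * a) * c3 := by
        have e1 : 4 * x2 ≤ a * a := by linarith
        have e2 := mul_le_mul_of_nonneg_right e1 hc3
        linarith
      have h13 : a * a ≤ n - 2 := by
        have e1 : a * a ≤ T0 * T0 := mul_le_mul h10 h10 ha0 (by linarith)
        linarith
      have h14 : (n - 2) * c3 ≤ (a - 2 * (t + 1)) * ((n - 2) * c3) := by
        have e1 : (0 : ℤ) ≤ (n - 2) * c3 := mul_nonneg (by linarith) hc3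
        have e2 : (1 : ℤ) ≤ a - 2 * (t + 1) := by linarith
        nlinarith
      have h15 := mul_le_mul_of_nonneg_right h13 hc3
      linarith
    · -- many edges
      set C := K + M + M * M with hC
      have hC0 : 0 ≤ C := by positivity
      have haC : a ≤ C * n := by
        have e1 : K ≤ K * n := le_mul_of_one_le_right hK (by linarith)
        have e2 : M * M ≤ M * M * n := le_mul_of_one_le_right (by positivity) (by linarith)
        have e3 : C * n = K * n + M * n + M * M * n := by rw [hC]; ring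
        rw [e3]
        linarith
      have h11 : m * (x3 * c4) ≤ 2 * m * C * a * c3 := by
        have e1 : x3 ≤ a * (C * n) := hx3a.trans (mul_le_mul_of_nonneg_left haC ha0)
        have e2 : m * (x3 * c4) ≤ m * ((a * (C * n)) * c4) :=
          mul_le_mul_of_nonneg_left (mul_le_mul_of_nonneg_right e1 hc4) hm
        have e3 : m * ((a * (C * n)) * c4) ≤ m * ((a * (C * (2 * (n - 3)))) * c4) := by
          refine mul_le_mul_of_nonneg_left (mul_le_mul_of_nonneg_right
            (mul_le_mul_of_nonneg_left (mul_le_mul_of_nonneg_left (by linarith) hC0) ha0) hc4) hm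
        have e4 : m * ((a * (C * (2 * (n - 3)))) * c4) = 2 * C * a * (m * ((n - 3) * c4)) := by
          ring
        rw [e4, ← h4] at e3
        have e5 : 2 * C * a * (m * c3) = 2 * m * C * a * c3 := by ring
        linarith
      -- the bracket without `c3`
      have h12 : 4 * (t + 1) * (n - 2) ≤ 2 * a * (n - 2) - 4 * x2 - 4 * m * C * a := by
        have e1 : 4 * x2 ≤ 4 * (K + M) * a + (n + 2 * M) * (a + 2 * (M * M)) := by linarith
        have e2 : 8 + 8 * (K + M) + 4 * M + 8 * m * C ≤ n := hn2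
        -- `a * (n / 2)` dominates
        have e3 : a * (2 * (4 + 4 * (K + M) + 2 * M + 4 * m * C)) ≤ a * n :=
          mul_le_mul_of_nonneg_left (by linarith) ha0
        have e4 : T0 * n ≤ a * n := mul_le_mul_of_nonneg_right h10.le (by linarith)
        have e5 : T0 * n = 8 * (t + 1) * n + 4 * M * M * n + 8 * M * M * M * n := by
          rw [hT0]; ring
        have e6 : 8 * M * M * M ≤ 8 * M * M * M * n :=
          le_mul_of_one_le_right (by positivity) (by linarith)
        linarith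
      have h13 := mul_le_mul_of_nonneg_right h12 hc3
      linarith

/-- **Theorem.** -/
theorem main (m t : ℕ) : ∃ n0 : ℕ, ∀ n, n0 ≤ n → ∀ (G : SimpleGraph (Fin n))
    [DecidableRel G.Adj], F G (m + 3) < F (star n (t + 1)) (m + 3) →
    ∃ (σ : ℤ) (g : Fin n → ℤ), (σ = 1 ∨ σ = -1) ∧ (∀ x, g x = 1 ∨ g x = -1) ∧
      ∑ x, dg (dif G σ g) x < 2 * (t + 1) := by
  set K := 2 * (m + 3) * (t + 1) with hK
  refine ⟨6 + (8 + 8 * (K + (m + 1)) + 4 * (m + 1) +
      8 * m * (K + (m + 1) + (m + 1) * (m + 1))) +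
      ((8 * (t + 1) + 4 * (m + 1) * (m + 1) + 8 * (m + 1) * (m + 1) * (m + 1)) *
      (8 * (t + 1) + 4 * (m + 1) * (m + 1) + 8 * (m + 1) * (m + 1) * (m + 1)) + 2) +
      ((m + 3) * (K + (m + 1) + (m + 1) * (m + 1)) + 2 * (m + 3) * (t + 1) + 2) + (t + 3),
      fun n hn G _ hlt => ?_⟩
  set c2 := (n - 2).descFactorial (m + 1) with hc2
  set c3 := (n - 3).descFactorial m with hc3
  set c4 := (n - 4).descFactorial (m - 1) with hc4
  have hn' := hn
  have hn6 : 6 ≤ n := by omega
  have hnt : t + 1 < n := by omega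
  have hc23 : c2 = (n - 2) * c3 := by
    rw [hc2, hc3, show n - 2 = (n - 3) + 1 by omega, Nat.succ_descFactorial_succ]
  have hc34 : m * c3 = m * ((n - 3) * c4) := by
    rcases Nat.eq_zero_or_pos m with h0 | h0
    · rw [h0]; simp
    · rw [hc3, hc4, show n - 3 = (n - 4) + 1 by omega]
      nth_rewrite 2 [show m = (m - 1) + 1 by omega]
      rw [Nat.succ_descFactorial_succ]
  have hstar := star_F (m := m) hnt
  rw [← hc2, ← hc3] at hstar
  have hFK : F G (m + 3) ≤ K * c2 := by
    have h1 : (F (star n (t + 1)) (m + 3) : ℤ) ≤ K * c2 := by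
      have h2 : (0 : ℤ) ≤ 2 * (m + 3) * (((t + 1 : ℕ) : ℤ) * ((t + 1 : ℕ) : ℤ) -
          ((t + 1 : ℕ) : ℤ)) * c3 := by
        have : (0 : ℤ) ≤ ((t + 1 : ℕ) : ℤ) * ((t + 1 : ℕ) : ℤ) - ((t + 1 : ℕ) : ℤ) := by
          push_cast; nlinarith [Int.natCast_nonneg t]
        positivity
      rw [hK]
      push_cast at hstar h2 ⊢
      linarith
    have h3 : F (star n (t + 1)) (m + 3) ≤ K * c2 := by exact_mod_cast h1
    omega
  have hcond : 4 * K + m + 4 < Fintype.card (Fin n) := by
    rw [Fintype.card_fin]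
    omega
  obtain ⟨σ, g, hσ, hg, hA, hB⟩ := exists_sparse (m := m) (K := K) G hcond
    (by rw [Fintype.card_fin]; exact hFK)
  rw [Fintype.card_fin] at hA hB
  refine ⟨σ, g, hσ, hg, ?_⟩
  by_contra hcon
  rw [not_lt] at hcon
  have ha1 := card_T1 (dif G σ g)
  have hlow := F_lower (dif G σ g) (m + 3)
  rw [sum_steps, sum_steps2, Fintype.card_fin, ← hc2, ← hc3, ← hc4] at hlow
  have hlow' : ((m : ℤ) + 3) * ((T1 (dif G σ g)).card * (((n : ℤ) - 2) * c3)) ≤
      F (dif G σ g) (m + 3) + ((m : ℤ) + 3) * (2 * ((T2 (dif G σ g)).card * c3) +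
        m * ((T3 (dif G σ g)).card * c4)) := by
    rw [hc23] at hlow
    have h1 : (((m + 3) * ((T1 (dif G σ g)).card * ((n - 2) * c3)) : ℕ) : ℤ) ≤
      ((F (dif G σ g) (m + 3) + (m + 3) * (2 * ((T2 (dif G σ g)).card * c3) +
        m * ((T3 (dif G σ g)).card * c4)) : ℕ) : ℤ) := by exact_mod_cast hlow
    push_cast at h1
    rwa [Nat.cast_sub (by omega)] at h1
  have hc34' : (m : ℤ) * c3 = m * (((n : ℤ) - 3) * c4) := by
    have h1 : ((m * c3 : ℕ) : ℤ) = ((m * ((n - 3) * c4) : ℕ) : ℤ) := by rw [hc34]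
    push_cast at h1
    rwa [Nat.cast_sub (by omega)] at h1
  have hpow : σ ^ (m + 3) = 1 ∨ σ ^ (m + 3) = -1 := by
    rcases hσ with h1 | h1
    · left; rw [h1, one_pow]
    · rw [h1]; exact neg_one_pow_eq_or ℤ (m + 3)
  have hstar' : (F (star n (t + 1)) (m + 3) : ℤ) + 2 * ((m : ℤ) + 3) *
      (((t : ℤ) + 1) * ((t : ℤ) + 1) - ((t : ℤ) + 1)) * c3 ≤
      2 * ((m : ℤ) + 3) * ((t : ℤ) + 1) * (((n : ℤ) - 2) * c3) := by
    rw [hc23] at hstar
    push_cast at hstar
    rwa [Nat.cast_sub (by omega)] at hstar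
  have hx3 := card_T3 (dif G σ g)
  have hx2 := card_T2 (dif G σ g)
  rw [← ha1] at hA hB hx2 hcon
  have hnz1 : (8 : ℤ) + 8 * (K + (m + 1)) + 4 * (m + 1) +
      8 * m * (K + (m + 1) + (m + 1) * (m + 1)) ≤ n := by
    have : 8 + 8 * (K + (m + 1)) + 4 * (m + 1) +
      8 * m * (K + (m + 1) + (m + 1) * (m + 1)) ≤ n := by omega
    exact_mod_cast this
  have hnz2 : ((8 : ℤ) * (t + 1) + 4 * (m + 1) * (m + 1) + 8 * (m + 1) * (m + 1) * (m + 1)) *
      (8 * (t + 1) + 4 * (m + 1) * (m + 1) + 8 * (m + 1) * (m + 1) * (m + 1)) + 2 ≤ n := by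
    have : (8 * (t + 1) + 4 * (m + 1) * (m + 1) + 8 * (m + 1) * (m + 1) * (m + 1)) *
      (8 * (t + 1) + 4 * (m + 1) * (m + 1) + 8 * (m + 1) * (m + 1) * (m + 1)) + 2 ≤ n := by omega
    exact_mod_cast this
  rcases hpow with hpow | hpow
  · -- the sign of a long cycle is the parity of the number of exceptional pairs
    have hFF := F_dif_pos G hσ hg hpow
    have h4' : 2 * (m : ℤ) * c4 ≤ c3 := by
      rcases Nat.eq_zero_or_pos m with h0 | h0
      · rw [h0]; simp
      · have h1 : (c3 : ℤ) = ((n : ℤ) - 3) * c4 := by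
          have hm0 : (m : ℤ) ≠ 0 := by exact_mod_cast h0.ne'
          exact mul_left_cancel₀ hm0 hc34'
        rw [h1]
        refine mul_le_mul_of_nonneg_right ?_ (Int.natCast_nonneg _)
        have h2 : 2 * m + 3 ≤ n := by
          have h3 : 4 * (m + 1) ≤ n := by omega
          omega
        have h3 : (2 * m + 3 : ℤ) ≤ n := by exact_mod_cast h2
        linarith
    have key := numeric (n := n) (m := m) (t := t) (K := K) (a := (T1 (dif G σ g)).card)
      (D2 := ∑ x, dg (dif G σ g) x * dg (dif G σ g) x) (x2 := (T2 (dif G σ g)).card)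
      (x3 := (T3 (dif G σ g)).card) (c3 := c3) (c4 := c4) (FE := F (dif G σ g) (m + 3))
      (FS := F (star n (t + 1)) (m + 3)) (by positivity) (by positivity) (by positivity)
      (by positivity) (by positivity) (by positivity) (by positivity) hlow' hx3 hx2 hc34' h4'
      hstar' hA hB (by exact_mod_cast hn6) hnz1 hnz2 hcon
    rw [hFF] at hlt
    have : F (star n (t + 1)) (m + 3) ≤ F (dif G σ g) (m + 3) := by exact_mod_cast key
    omega
  · -- nearly all cycles are frustrated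
    have hFF := F_dif_neg G hσ hg hpow
    have hup := F_upper (dif G σ g) (m + 3)
    rw [sum_steps, Fintype.card_fin, ← hc2] at hup
    have hdesc : n.descFactorial (m + 3) = n * ((n - 1) * c2) := by
      rw [hc2]
      obtain ⟨n', rfl⟩ : ∃ n', n = n' + 2 := ⟨n - 2, by omega⟩
      rw [Nat.succ_descFactorial_succ, show n' + 2 - 1 = n' + 1 by omega,
        show n' + 2 - 2 = n' by omega, Nat.succ_descFactorial_succ]
    rw [Fintype.card_fin, hdesc] at hFF
    have hc2pos : 0 < c2 := by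
      rcases Nat.eq_zero_or_pos c2 with h0 | h0
      · exfalso
        have h1 : (F (star n (t + 1)) (m + 3) : ℤ) ≤ 0 := by
          have h2 : (0 : ℤ) ≤ 2 * (m + 3) * (((t + 1 : ℕ) : ℤ) * ((t + 1 : ℕ) : ℤ) -
              ((t + 1 : ℕ) : ℤ)) * c3 := by
            have : (0 : ℤ) ≤ ((t + 1 : ℕ) : ℤ) * ((t + 1 : ℕ) : ℤ) - ((t + 1 : ℕ) : ℤ) := by
              push_cast; nlinarith [Int.natCast_nonneg t]
            positivity
          rw [h0] at hstar
          push_cast at hstar h2 ⊢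
          linarith
        have h3 : F (star n (t + 1)) (m + 3) ≤ 0 := by exact_mod_cast h1
        omega
      · exact h0
    have hFs : F (star n (t + 1)) (m + 3) ≤ K * c2 := by
      have h1 : (F (star n (t + 1)) (m + 3) : ℤ) ≤ K * c2 := by
        have h2 : (0 : ℤ) ≤ 2 * (m + 3) * (((t + 1 : ℕ) : ℤ) * ((t + 1 : ℕ) : ℤ) -
            ((t + 1 : ℕ) : ℤ)) * c3 := by
          have : (0 : ℤ) ≤ ((t + 1 : ℕ) : ℤ) * ((t + 1 : ℕ) : ℤ) - ((t + 1 : ℕ) : ℤ) := by
            push_cast; nlinarith [Int.natCast_nonneg t]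
          positivity
        rw [hK]
        push_cast at hstar h2 ⊢
        linarith
      exact_mod_cast h1
    have h1 : n * ((n - 1) * c2) < (K + (m + 3) * (T1 (dif G σ g)).card) * c2 := by
      have : n * ((n - 1) * c2) < K * c2 + (m + 3) * ((T1 (dif G σ g)).card * c2) := by omega
      calc n * ((n - 1) * c2) < K * c2 + (m + 3) * ((T1 (dif G σ g)).card * c2) := this
        _ = _ := by ring
    rw [← mul_assoc] at h1
    have h2 := Nat.lt_of_mul_lt_mul_right h1
    have h3 : ((T1 (dif G σ g)).card : ℤ) ≤ K + (m + 1) * n + (m + 1) * (m + 1) := hA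
    have h4 : (T1 (dif G σ g)).card ≤ K + (m + 1) * n + (m + 1) * (m + 1) := by exact_mod_cast h3
    have h5 : (T1 (dif G σ g)).card ≤ (K + (m + 1) + (m + 1) * (m + 1)) * n := by
      have e1 : K ≤ K * n := Nat.le_mul_of_pos_right _ (by omega)
      have e2 : (m + 1) * (m + 1) ≤ (m + 1) * (m + 1) * n := Nat.le_mul_of_pos_right _ (by omega)
      calc _ ≤ K + (m + 1) * n + (m + 1) * (m + 1) := h4
        _ ≤ K * n + (m + 1) * n + (m + 1) * (m + 1) * n := by omega
        _ = _ := by ring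
    have h6 : K + (m + 3) * (T1 (dif G σ g)).card ≤ n * (n - 1) := by
      have e1 : (m + 3) * (T1 (dif G σ g)).card ≤
          (m + 3) * ((K + (m + 1) + (m + 1) * (m + 1)) * n) := Nat.mul_le_mul_left _ h5
      have e2 : (m + 3) * (K + (m + 1) + (m + 1) * (m + 1)) + 2 * (m + 3) * (t + 1) ≤ n - 1 := by
        omega
      have e3 : n * ((m + 3) * (K + (m + 1) + (m + 1) * (m + 1)) + K) ≤ n * (n - 1) :=
        Nat.mul_le_mul_left _ e2
      have e4 : K ≤ n * K := Nat.le_mul_of_pos_left _ (by omega)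
      calc _ ≤ n * K + (m + 3) * ((K + (m + 1) + (m + 1) * (m + 1)) * n) := by omega
        _ = n * ((m + 3) * (K + (m + 1) + (m + 1) * (m + 1)) + K) := by ring
        _ ≤ _ := e3
    omega

end Pool.Agent.X160.Fc
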