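import Pool.Agent.X160.Fc.Deg

/-!
# Few frustrated cycles force a product structure
-/

set_option autoImplicit false
open Finset

namespace Pool.Agent.X160.Fc

variable {V : Type*} [Fintype V] [DecidableEq V] (G : SimpleGraph V) [DecidableRel G.Adj]

/-- The sign of a pair. -/
def sgn (x y : V) : ℤ := if G.Adj x y then -1 else 1

theorem sgn_symm (x y : V) : sgn G x y = sgn G y x := by
  unfold sgn
  simp only [G.adj_comm x y]

theorem sgn_cases (x y : V) : sgn G x y = 1 ∨ sgn G x y = -1 := by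
  unfold sgn; split_ifs <;> simp

theorem prod_sgn {k : ℕ} (v : Fin k ↪ V) :
    ∏ i, sgn G (v i) (v (finRotate k i)) = (-1) ^ steps G v := by
  unfold sgn steps
  rw [prod_ite, prod_const, prod_const_one, mul_one]

theorem odd_iff {k : ℕ} (v : Fin k ↪ V) : Odd (steps G v) ↔
    ∏ i, sgn G (v i) (v (finRotate k i)) = -1 := by
  rw [prod_sgn]
  rcases Nat.even_or_odd (steps G v) with h | h
  · rw [h.neg_one_pow]
    simp [Nat.not_odd_iff_even, h]
  · rw [h.neg_one_pow]
    simp [h]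

/-- The embedding of the positions `2, …, m + 2`. -/
def pos (m : ℕ) : Fin (m + 1) ↪ Fin (m + 3) :=
  ⟨fun i => i.succ.succ, fun i j h => Fin.succ_injective _ (Fin.succ_injective _ h)⟩

/-- The inner product of signs. -/
def cQ {m : ℕ} (Q : Fin (m + 1) ↪ V) : ℤ := ∏ i : Fin m, sgn G (Q i.castSucc) (Q i.succ)

theorem prod_pos_eq {m : ℕ} (v : Fin (m + 3) ↪ V) (Q : Fin (m + 1) ↪ V)
    (hv : (pos m).trans v = Q) : ∏ i, sgn G (v i) (v (finRotate (m + 3) i)) =
      sgn G (v 0) (v 1) * (sgn G (v 1) (Q 0) * cQ G Q * sgn G (Q (Fin.last m)) (v 0)) := by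
  have hQ : ∀ i, Q i = v i.succ.succ := fun i => by rw [← hv]; rfl
  rw [Fin.prod_univ_castSucc, Fin.prod_univ_succ, Fin.prod_univ_succ]
  have e1 : ∀ i : Fin (m + 2), finRotate (m + 3) i.castSucc = i.succ := fun i => by
    rw [finRotate_apply, Fin.coeSucc_eq_succ]
  have e2 : finRotate (m + 3) (Fin.last (m + 2)) = 0 := by
    rw [finRotate_apply, Fin.last_add_one]
  rw [e2]
  simp only [e1]
  unfold cQ
  simp only [hQ]
  rw [mul_assoc, mul_assoc, mul_assoc]
  rfl

theorem cQ_cases {m : ℕ} (Q : Fin (m + 1) ↪ V) : cQ G Q = 1 ∨ cQ G Q = -1 := by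
  unfold cQ
  refine Finset.prod_induction _ (fun x : ℤ => x = 1 ∨ x = -1) ?_ (Or.inl rfl) ?_
  · rintro a b (rfl | rfl) (rfl | rfl) <;> simp
  · exact fun i _ => sgn_cases G _ _

open Classical in
/-- The pairs off the range of `Q` with the wrong sign. -/
noncomputable def bad {m : ℕ} (Q : Fin (m + 1) ↪ V) (σ : ℤ) (g : V → ℤ) : Finset (V × V) :=
  univ.filter fun p => p.1 ≠ p.2 ∧ p.1 ∉ Set.range Q ∧ p.2 ∉ Set.range Q ∧
    sgn G p.1 p.2 ≠ σ * g p.1 * g p.2

theorem exists_switch {m K : ℕ} (hn : 4 * K + m + 4 < Fintype.card V)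
    (hF : F G (m + 3) ≤ K * (Fintype.card V - 2).descFactorial (m + 1)) :
    ∃ (Q : Fin (m + 1) ↪ V) (σ : ℤ) (g : V → ℤ), (σ = 1 ∨ σ = -1) ∧
      (∀ x, g x = 1 ∨ g x = -1) ∧ (bad G Q σ g).card ≤ K := by
  classical
  set n := Fintype.card V with hncard
  -- choose the inner path
  have hne : (univ : Finset (Fin (m + 1) ↪ V)).Nonempty := by
    rw [← card_pos, card_univ, Fintype.card_embedding_eq, Fintype.card_fin, ← hncard,
      Nat.descFactorial_pos]
    omega
  obtain ⟨Q, -, hQ⟩ := exists_card_fiber_le_of_card_le_mul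
    (s := univ.filter fun v : Fin (m + 3) ↪ V => Odd (steps G v)) (t := univ)
    (f := fun v => (pos m).trans v) (n := K) hne (by
      rw [card_univ, Fintype.card_embedding_eq, Fintype.card_fin, ← hncard]
      refine le_trans (b := K * (n - 2).descFactorial (m + 1)) hF ?_
      rw [mul_comm]
      exact Nat.mul_le_mul_right _ (Nat.descFactorial_le _ (Nat.sub_le _ _)))
  set g : V → ℤ := fun z => sgn G z (Q 0) with hg
  set h : V → ℤ := fun y => sgn G (Q (Fin.last m)) y with hh
  set c := cQ G Q with hc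
  have hgc : ∀ x, g x = 1 ∨ g x = -1 := fun x => sgn_cases G _ _
  have hhc : ∀ x, h x = 1 ∨ h x = -1 := fun x => sgn_cases G _ _
  have hcc : c = 1 ∨ c = -1 := cQ_cases G Q
  set Bd : Finset (V × V) := univ.filter fun p => p.1 ≠ p.2 ∧ p.1 ∉ Set.range Q ∧
    p.2 ∉ Set.range Q ∧ sgn G p.1 p.2 * (g p.2 * c * h p.1) = -1 with hBd
  have hBdK : Bd.card ≤ K := by
    refine le_trans ?_ hQ
    refine card_le_card_of_surjOn (fun v => (v 0, v 1)) ?_
    rintro ⟨y, z⟩ hyz
    obtain ⟨h1, h2, h3, h4⟩ := (mem_filter.1 hyz).2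
    simp only at h1 h2 h3 h4
    have hz : z ∉ Set.range Q := h3
    let w : Fin (m + 2) ↪ V := ⟨Fin.cons z Q, Fin.cons_injective_iff.2 ⟨hz, Q.injective⟩⟩
    have hy : y ∉ Set.range w := by
      rintro ⟨i, hi⟩
      refine Fin.cases ?_ (fun j => ?_) i hi
      · intro h5; exact h1 h5.symm
      · intro h5; exact h2 ⟨j, h5⟩
    let v : Fin (m + 3) ↪ V := ⟨Fin.cons y w, Fin.cons_injective_iff.2 ⟨hy, w.injective⟩⟩
    have hv : (pos m).trans v = Q := by ext i; rfl
    refine ⟨v, ?_, rfl⟩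
    rw [mem_coe, mem_filter, mem_filter]
    refine ⟨⟨mem_univ _, ?_⟩, hv⟩
    rw [odd_iff, prod_pos_eq G v Q hv]
    exact h4
  -- good pairs
  have hgood : ∀ y z, y ≠ z → y ∉ Set.range Q → z ∉ Set.range Q → (y, z) ∉ Bd →
      sgn G y z = c * g z * h y := by
    intro y z h1 h2 h3 h4
    have h5 : sgn G y z * (g z * c * h y) ≠ -1 := by
      intro h6
      exact h4 (mem_filter.2 ⟨mem_univ _, h1, h2, h3, h6⟩)
    revert h5
    rcases sgn_cases G y z with e1 | e1 <;> rcases hgc z with e2 | e2 <;>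
      rcases hhc y with e3 | e3 <;> rcases hcc with e4 | e4 <;>
      rw [e1, e2, e3, e4] <;> norm_num
  -- `g * h` is constant
  have hconst : ∀ y₁ y₂, y₁ ∉ Set.range Q → y₂ ∉ Set.range Q → g y₁ * h y₁ = g y₂ * h y₂ := by
    intro y₁ y₂ hy₁ hy₂
    by_contra hne12
    have hy12 : y₁ ≠ y₂ := fun h => hne12 (by rw [h])
    set W : Finset V := univ \ (univ.image Q ∪ {y₁, y₂}) with hW
    have hWcard : n ≤ W.card + (m + 3) := by
      have h1 : (univ : Finset V).card - (univ.image Q ∪ {y₁, y₂}).card ≤ W.card :=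
        le_card_sdiff _ _
      have h2 : (univ.image Q ∪ {y₁, y₂}).card ≤ m + 3 := by
        refine (card_union_le _ _).trans ?_
        have h3 : (univ.image Q).card ≤ m + 1 := card_image_le.trans (by simp)
        have h4 : ({y₁, y₂} : Finset V).card ≤ 2 := card_le_two
        omega
      rw [card_univ, ← hncard] at h1
      omega
    have hsub : W ⊆ ((Bd.image Prod.fst) ∪ (Bd.image Prod.snd)) ∪
        ((Bd.image Prod.fst) ∪ (Bd.image Prod.snd)) := by
      intro z hz
      rw [hW, mem_sdiff, mem_union, not_or, mem_insert, mem_singleton, not_or] at hz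
      obtain ⟨_, hz1, hz2, hz3⟩ := hz
      have hzQ : z ∉ Set.range Q := fun ⟨i, hi⟩ => hz1 (mem_image.2 ⟨i, mem_univ _, hi⟩)
      have key : ∀ y, y ∉ Set.range Q → z ≠ y → g z * h z ≠ g y * h y →
          z ∈ (Bd.image Prod.fst) ∪ (Bd.image Prod.snd) := by
        intro y hyQ hzy hd
        rw [mem_union]
        by_contra hcon
        rw [not_or] at hcon
        have h1 : (z, y) ∉ Bd := fun hm => hcon.1 (mem_image.2 ⟨_, hm, rfl⟩)
        have h2 : (y, z) ∉ Bd := fun hm => hcon.2 (mem_image.2 ⟨_, hm, rfl⟩)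
        have h3 := hgood z y hzy hzQ hyQ h1
        have h4 := hgood y z hzy.symm hyQ hzQ h2
        rw [sgn_symm, h4] at h3
        apply hd
        revert h3
        rcases hgc z with e1 | e1 <;> rcases hgc y with e2 | e2 <;>
          rcases hhc z with e3 | e3 <;> rcases hhc y with e4 | e4 <;>
          rcases hcc with e5 | e5 <;> rw [e1, e2, e3, e4, e5] <;> norm_num
      rw [union_idempotent]
      by_cases hd : g z * h z = g y₁ * h y₁
      · exact key y₂ hy₂ hz3 (by rw [hd]; exact hne12)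
      · exact key y₁ hy₁ hz2 hd
    have h5 := card_le_card hsub
    rw [union_idempotent] at h5
    have h6 := card_union_le (Bd.image Prod.fst) (Bd.image Prod.snd)
    have h7 : (Bd.image Prod.fst).card ≤ Bd.card := card_image_le
    have h8 : (Bd.image Prod.snd).card ≤ Bd.card := card_image_le
    omega
  -- a vertex off `Q`
  obtain ⟨y₀, hy₀⟩ : ∃ y, y ∉ Set.range Q := by
    by_contra hcon
    push Not at hcon
    have h1 : Fintype.card V ≤ Fintype.card (Fin (m + 1)) :=
      Fintype.card_le_of_surjective Q hcon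
    rw [Fintype.card_fin, ← hncard] at h1
    omega
  refine ⟨Q, c * (g y₀ * h y₀), g, ?_, hgc, ?_⟩
  · rcases hcc with e1 | e1 <;> rcases hgc y₀ with e2 | e2 <;> rcases hhc y₀ with e3 | e3 <;>
      rw [e1, e2, e3] <;> norm_num
  · refine le_trans (card_le_card ?_) hBdK
    rintro ⟨y, z⟩ hyz
    obtain ⟨h1, h2, h3, h4⟩ := (mem_filter.1 hyz).2
    simp only at h1 h2 h3 h4
    by_contra hcon
    apply h4
    rw [hgood y z h1 h2 h3 hcon, ← hconst y y₀ h2 hy₀]
    rcases hgc y with e1 | e1 <;> rw [e1] <;> ring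

end Pool.Agent.X160.Fc
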